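import Mathlib

set_option autoImplicit false
open Finset

namespace Pool.Agent.H.PDisc

/- moment predicate -/
def Mo {Ω : Type} [Fintype Ω] (m : ℕ) (X : Ω → ℝ) (a : ℝ) : Prop :=
  ∑ ω, X ω ^ (2 * m) ≤ (Fintype.card Ω : ℝ) * a ^ m

lemma pw_expand (k : ℕ) (x y : ℝ) :
    (x + y) ^ (k + 2) ≤ x ^ (k + 2) + ((k : ℝ) + 2) * (x ^ (k + 1) * y)
      + 2 ^ (k + 2) * (|x| ^ k * y ^ 2 + |y| ^ (k + 2)) := by
  have h := add_pow y x (k + 2)
  rw [add_comm x y, h, sum_range_succ', sum_range_succ']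
  have h1 : ∑ i ∈ range (k + 1), y ^ (i + 1 + 1) * x ^ (k + 2 - (i + 1 + 1)) * ((k + 2).choose (i + 1 + 1) : ℝ)
      ≤ ∑ i ∈ range (k + 1), (|x| ^ k * y ^ 2 + |y| ^ (k + 2)) * ((k + 2).choose (i + 1 + 1) : ℝ) := by
    refine sum_le_sum fun i hi => ?_
    have hi' : i ≤ k := by have := mem_range.1 hi; omega
    refine mul_le_mul_of_nonneg_right ?_ (by positivity)
    have e : k + 2 - (i + 1 + 1) = k - i := by omega
    rw [e]
    refine (le_abs_self _).trans ?_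
    rw [abs_mul, abs_pow, abs_pow]
    obtain ⟨j, rfl⟩ := Nat.exists_eq_add_of_le hi'
    have e2 : i + j - i = j := by omega
    rw [e2, ← sq_abs y]
    have ha := abs_nonneg x
    have hb := abs_nonneg y
    generalize |x| = a at *
    generalize |y| = b at *
    rcases le_total a b with hab | hab
    · have : a ^ j ≤ b ^ j := pow_le_pow_left₀ ha hab j
      have h3 : b ^ (i + 1 + 1) * a ^ j ≤ b ^ (i + j + 2) := by
        calc b ^ (i + 1 + 1) * a ^ j ≤ b ^ (i + 1 + 1) * b ^ j := by gcongr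
          _ = b ^ (i + j + 2) := by ring
      have : 0 ≤ a ^ (i + j) * b ^ 2 := by positivity
      linarith
    · have : b ^ i ≤ a ^ i := pow_le_pow_left₀ hb hab i
      have h3 : b ^ (i + 1 + 1) * a ^ j ≤ a ^ (i + j) * b ^ 2 := by
        calc b ^ (i + 1 + 1) * a ^ j = b ^ i * (a ^ j * b ^ 2) := by ring
          _ ≤ a ^ i * (a ^ j * b ^ 2) := by gcongr
          _ = a ^ (i + j) * b ^ 2 := by ring
      have : 0 ≤ b ^ (i + j + 2) := by positivity
      linarith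
  have h2 : ∑ i ∈ range (k + 1), ((k + 2).choose (i + 1 + 1) : ℝ) ≤ 2 ^ (k + 2) := by
    have h3 := Nat.sum_range_choose (k + 2)
    rw [sum_range_succ', sum_range_succ'] at h3
    have h4 : ∑ i ∈ range (k + 1), (k + 2).choose (i + 1 + 1) ≤ 2 ^ (k + 2) := by omega
    exact_mod_cast h4
  rw [← mul_sum] at h1
  have h5 : (|x| ^ k * y ^ 2 + |y| ^ (k + 2)) * ∑ i ∈ range (k + 1), ((k + 2).choose (i + 1 + 1) : ℝ)
      ≤ (|x| ^ k * y ^ 2 + |y| ^ (k + 2)) * 2 ^ (k + 2) :=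
    mul_le_mul_of_nonneg_left h2 (by positivity)
  have e1 : y ^ (0 + 1) * x ^ (k + 2 - (0 + 1)) * ((k + 2).choose (0 + 1) : ℝ)
      = ((k : ℝ) + 2) * (x ^ (k + 1) * y) := by
    rw [show k + 2 - (0 + 1) = k + 1 by omega, zero_add, Nat.choose_one_right]; push_cast; ring
  have e2 : y ^ 0 * x ^ (k + 2 - 0) * ((k + 2).choose 0 : ℝ) = x ^ (k + 2) := by simp
  rw [e1, e2]
  linarith

lemma pow_three_le (n : ℕ) (A B : ℝ) (hA : 0 ≤ A) (hB : 0 ≤ B) :
    A ^ (n + 2) + 2 * (A ^ (n + 1) * B) + B ^ (n + 2) ≤ (A + B) ^ (n + 2) := by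
  induction n with
  | zero => exact le_of_eq (by ring)
  | succ n ih =>
    have h1 : (A + B) * (A ^ (n + 2) + 2 * (A ^ (n + 1) * B) + B ^ (n + 2)) ≤ (A + B) * (A + B) ^ (n + 2) :=
      mul_le_mul_of_nonneg_left ih (by positivity)
    have h2 : 0 ≤ A ^ (n + 2) * B := by positivity
    have h3 : 0 ≤ A ^ (n + 1) * B * B := by positivity
    have h4 : 0 ≤ A * B ^ (n + 2) := by positivity
    have e1 : (A + B) ^ (n + 1 + 2) = (A + B) * (A + B) ^ (n + 2) := by ring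
    have e2 : (A + B) * (A ^ (n + 2) + 2 * (A ^ (n + 1) * B) + B ^ (n + 2))
        = A ^ (n + 1 + 2) + 2 * (A ^ (n + 1 + 1) * B) + B ^ (n + 1 + 2)
          + (A ^ (n + 2) * B + 2 * (A ^ (n + 1) * B * B) + A * B ^ (n + 2)) := by ring
    linarith

lemma rio {Ω : Type} [Fintype Ω] (n : ℕ) (X Y : Ω → ℝ) (a b : ℝ) (ha : 0 < a) (hb : 0 < b)
    (hX : Mo (n + 2) X a) (hY : Mo (n + 2) Y b)
    (ho : ∑ ω, X ω ^ (2 * n + 3) * Y ω = 0) :
    Mo (n + 2) (fun ω => X ω + Y ω) (a + 2 ^ (2 * n + 4) * b) := by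
  unfold Mo at *
  set W : ℝ := (Fintype.card Ω : ℝ)
  have hW : 0 ≤ W := by positivity
  set c : ℝ := 2 ^ (2 * n + 4) with hc
  have hc1 : 1 ≤ c := one_le_pow₀ (by norm_num)
  have pw : ∀ ω, (X ω + Y ω) ^ (2 * (n + 2)) ≤ X ω ^ (2 * (n + 2))
      + ((2 * n + 2 : ℕ) + 2 : ℝ) * (X ω ^ (2 * n + 3) * Y ω)
      + c * (a ^ (n + 1) * b * (X ω ^ (2 * (n + 2)) / a ^ (n + 2) + Y ω ^ (2 * (n + 2)) / b ^ (n + 2))
        + Y ω ^ (2 * (n + 2))) := by
    intro ω
    have h := pw_expand (2 * n + 2) (X ω) (Y ω)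
    have e1 : |X ω| ^ (2 * n + 2) = (X ω ^ 2) ^ (n + 1) := by
      rw [← sq_abs, ← pow_mul]; ring_nf
    have e2 : |Y ω| ^ (2 * n + 2 + 2) = Y ω ^ (2 * (n + 2)) := by
      rw [pow_mul, ← sq_abs, ← pow_mul]; ring_nf
    rw [e1, e2] at h
    have e3 : X ω ^ (2 * (n + 2)) = (X ω ^ 2) ^ (n + 2) := pow_mul _ _ _
    have e4 : Y ω ^ (2 * (n + 2)) = (Y ω ^ 2) ^ (n + 2) := pow_mul _ _ _
    have key : (X ω ^ 2) ^ (n + 1) * Y ω ^ 2 ≤
        a ^ (n + 1) * b * (X ω ^ (2 * (n + 2)) / a ^ (n + 2) + Y ω ^ (2 * (n + 2)) / b ^ (n + 2)) := by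
      rw [e3, e4, ← div_pow, ← div_pow]
      have hu : 0 ≤ X ω ^ 2 / a := by positivity
      have hv : 0 ≤ Y ω ^ 2 / b := by positivity
      have e5 : (X ω ^ 2) ^ (n + 1) * Y ω ^ 2 = a ^ (n + 1) * b * ((X ω ^ 2 / a) ^ (n + 1) * (Y ω ^ 2 / b)) := by
        rw [div_pow]; field_simp
      rw [e5]
      refine mul_le_mul_of_nonneg_left ?_ (by positivity)
      generalize X ω ^ 2 / a = u at *
      generalize Y ω ^ 2 / b = v at *
      rcases le_total u v with huv | huv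
      · have : u ^ (n + 1) * v ≤ v ^ (n + 1) * v := by gcongr
        have h2 : 0 ≤ u ^ (n + 2) := by positivity
        have h3 : v ^ (n + 2) = v ^ (n + 1) * v := by ring
        linarith
      · have : u ^ (n + 1) * v ≤ u ^ (n + 1) * u := by gcongr
        have h2 : 0 ≤ v ^ (n + 2) := by positivity
        have h3 : u ^ (n + 2) = u ^ (n + 1) * u := by ring
        linarith
    have e6 : 2 * n + 2 + 2 = 2 * (n + 2) := by ring
    have e7 : 2 * n + 2 + 1 = 2 * n + 3 := by ring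
    have e8 : (2 : ℝ) ^ (2 * (n + 2)) = c := by rw [hc]; ring_nf
    rw [e6, e7, e8] at h
    have := mul_le_mul_of_nonneg_left key (show 0 ≤ c by positivity)
    linarith
  refine (sum_le_sum fun ω _ => pw ω).trans ?_
  rw [sum_add_distrib, sum_add_distrib, ← mul_sum, ← mul_sum, ho, sum_add_distrib, ← mul_sum,
    sum_add_distrib, ← sum_div, ← sum_div]
  have h1 : (∑ ω, X ω ^ (2 * (n + 2))) / a ^ (n + 2) ≤ W := by
    rw [div_le_iff₀ (by positivity)]; exact hX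
  have h2 : (∑ ω, Y ω ^ (2 * (n + 2))) / b ^ (n + 2) ≤ W := by
    rw [div_le_iff₀ (by positivity)]; exact hY
  have h3 := pow_three_le n a (c * b) ha.le (by positivity)
  have h4 : c * b ^ (n + 2) ≤ (c * b) ^ (n + 2) := by
    rw [mul_pow]
    refine mul_le_mul_of_nonneg_right ?_ (by positivity)
    exact le_self_pow₀ hc1 (by omega)
  have h5 : a ^ (n + 1) * b * ((∑ ω, X ω ^ (2 * (n + 2))) / a ^ (n + 2)
      + (∑ ω, Y ω ^ (2 * (n + 2))) / b ^ (n + 2)) ≤ a ^ (n + 1) * b * (2 * W) :=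
    mul_le_mul_of_nonneg_left (by linarith) (by positivity)
  have h6 := mul_le_mul_of_nonneg_left (add_le_add h5 hY) (show 0 ≤ c by positivity)
  have h7 := mul_le_mul_of_nonneg_left h3 hW
  have h8 := mul_le_mul_of_nonneg_left h4 hW
  nlinarith

lemma orth {Ω : Type} [Fintype Ω] (k b : ℕ) (hb : 0 < b) (τ : ℕ → Ω ≃ Ω) (X Y : Ω → ℝ)
    (hX : ∀ c ω, X (τ c ω) = X ω) (hY : ∀ ω, ∑ c ∈ range b, Y (τ c ω) = 0) :
    ∑ ω, X ω ^ k * Y ω = 0 := by
  have h1 : ∀ c, ∑ ω, X ω ^ k * Y ω = ∑ ω, X ω ^ k * Y (τ c ω) := by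
    intro c
    rw [← Equiv.sum_comp (τ c)]
    simp only [hX]
  have h2 : ∑ c ∈ range b, ∑ ω, X ω ^ k * Y ω = 0 := by
    rw [sum_congr rfl fun c _ => h1 c, sum_comm]
    refine sum_eq_zero fun ω _ => ?_
    rw [← mul_sum, hY, mul_zero]
  rw [sum_const, card_range, nsmul_eq_mul] at h2
  rcases mul_eq_zero.1 h2 with h | h
  · exact absurd h (by positivity)
  · exact h

/- periodic functions on the naturals -/
def Per (q : ℕ) (f : ℕ → ℝ) : Prop := ∀ u v, u ≡ v [MOD q] → f u = f v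

lemma Per.of_dvd {q r : ℕ} {f : ℕ → ℝ} (h : Per q f) (hd : q ∣ r) : Per r f :=
  fun u v huv => h u v (huv.of_dvd hd)

lemma Per.shift {q : ℕ} {f : ℕ → ℝ} (h : Per q f) (a : ℕ) : Per q (fun u => f (u + a)) :=
  fun _ _ huv => h _ _ (huv.add_right a)

lemma Per.sum_shift {q : ℕ} {f : ℕ → ℝ} (h : Per q f) (a : ℕ) :
    ∑ u ∈ range q, f (u + a) = ∑ u ∈ range q, f u := by
  induction a with
  | zero => simp
  | succ a ih =>
    have h1 := sum_range_succ (fun u => f (u + a)) q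
    have h2 := sum_range_succ' (fun u => f (u + a)) q
    have h3 : f (q + a) = f (0 + a) := h _ _ (by simp [Nat.ModEq])
    have h4 : ∑ u ∈ range q, f (u + (a + 1)) = ∑ u ∈ range q, f (u + 1 + a) :=
      sum_congr rfl fun u _ => by congr 1; ring
    rw [h4, ← ih]
    linarith

lemma sum_range_mul' (q c : ℕ) (f : ℕ → ℝ) :
    ∑ n ∈ range (q * c), f n = ∑ i ∈ range c, ∑ u ∈ range q, f (u + i * q) := by
  induction c with
  | zero => simp
  | succ c ih =>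
    rw [Nat.mul_succ, sum_range_add, ih, sum_range_succ]
    congr 1
    exact sum_congr rfl fun u _ => by congr 1; ring

lemma Per.sum_mul {q : ℕ} {f : ℕ → ℝ} (h : Per q f) (c : ℕ) :
    ∑ n ∈ range (q * c), f n = c * ∑ u ∈ range q, f u := by
  rw [sum_range_mul', sum_congr rfl fun i _ => h.sum_shift (i * q)]
  simp

lemma crt2 (a b : ℕ) (hab : a.Coprime b) (ha : 0 < a) (hb : 0 < b) (f g : ℕ → ℝ)
    (hf : Per a f) (hg : Per b g) :
    ∑ n ∈ range (a * b), f n * g n = (∑ u ∈ range a, f u) * ∑ v ∈ range b, g v := by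
  rw [sum_mul_sum, ← sum_product']
  refine sum_bij (fun n _ => (n % a, n % b)) ?_ ?_ ?_ ?_
  · intro n _
    simp [Nat.mod_lt, ha, hb]
  · intro n hn n' hn' h
    simp only [Prod.mk.injEq] at h
    have : n ≡ n' [MOD a * b] := (Nat.modEq_and_modEq_iff_modEq_mul hab).1 h
    exact Nat.ModEq.eq_of_lt_of_lt this (mem_range.1 hn) (mem_range.1 hn')
  · rintro ⟨u, v⟩ huv
    simp only [mem_product, mem_range] at huv
    obtain ⟨n, h1, h2⟩ := Nat.chineseRemainder hab u v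
    refine ⟨n % (a * b), mem_range.2 (Nat.mod_lt _ (by positivity)), ?_⟩
    rw [Nat.mod_mul_right_mod, Nat.mod_mul_left_mod, h1, h2, Nat.mod_eq_of_lt huv.1,
      Nat.mod_eq_of_lt huv.2]
  · intro n _
    rw [hf n (n % a) (Nat.mod_modEq n a).symm, hg n (n % b) (Nat.mod_modEq n b).symm]

lemma crt {ι : Type} [DecidableEq ι] (S : Finset ι) (q : ι → ℕ) (hq : ∀ i, 0 < q i)
    (hc : ∀ i j, i ≠ j → (q i).Coprime (q j)) (f : ι → ℕ → ℝ) (hf : ∀ i, Per (q i) (f i)) :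
    Per (∏ i ∈ S, q i) (fun n => ∏ i ∈ S, f i n) ∧
    ∑ n ∈ range (∏ i ∈ S, q i), ∏ i ∈ S, f i n = ∏ i ∈ S, ∑ u ∈ range (q i), f i u := by
  refine ⟨fun u v huv => prod_congr rfl fun i hi => hf i _ _ (huv.of_dvd (dvd_prod_of_mem q hi)), ?_⟩
  induction S using Finset.induction_on with
  | empty => simp
  | insert i S hi ih =>
    simp only [prod_insert hi]
    rw [crt2 _ _ ?_ (hq i) (prod_pos fun j _ => hq j) _ _ (hf i)
      (fun u v huv => prod_congr rfl fun j hj => hf j _ _ (huv.of_dvd (dvd_prod_of_mem q hj))), ih]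
    exact Nat.Coprime.prod_right fun j hj => hc i j (fun h => hi (h ▸ hj))

lemma wbound (K M Q : ℕ) (hQ : Q ∣ M) (hM : 0 < M) (hK : K ≤ M) (g : ℕ → ℝ) (hg : Per Q g) :
    |∑ n ∈ range M, ((if n < K then 1 else 0) - (K : ℝ) / M) * g n| ≤ 2 * ∑ n ∈ range Q, |g n| := by
  obtain ⟨c, rfl⟩ := hQ
  have hQ0 : 0 < Q := Nat.pos_of_mul_pos_right hM
  have hc0 : 0 < c := Nat.pos_of_mul_pos_left hM
  have e1 : ∑ n ∈ range (Q * c), ((if n < K then 1 else 0) - (K : ℝ) / (Q * c : ℕ)) * g n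
      = ∑ n ∈ range K, g n - (K : ℝ) / (Q * c : ℕ) * ∑ n ∈ range (Q * c), g n := by
    simp only [sub_mul, sum_sub_distrib, ← mul_sum, ite_mul, one_mul, zero_mul]
    congr 1
    rw [← sum_filter]
    congr 1
    ext n
    simp only [mem_filter, mem_range]
    omega
  rw [e1, hg.sum_mul]
  have hK' : K = Q * (K / Q) + K % Q := (Nat.div_add_mod K Q).symm
  have e2 : ∑ n ∈ range K, g n = (K / Q : ℕ) * ∑ u ∈ range Q, g u + ∑ u ∈ range (K % Q), g u := by
    conv_lhs => rw [hK']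
    rw [sum_range_add, hg.sum_mul]
    congr 1
    exact sum_congr rfl fun u _ => hg _ _ (by simp [Nat.ModEq])
  rw [e2]
  have e3 : (K : ℝ) = Q * (K / Q : ℕ) + (K % Q : ℕ) := by exact_mod_cast hK'
  have hr : ((K % Q : ℕ) : ℝ) ≤ Q := by exact_mod_cast (Nat.mod_lt K hQ0).le
  set t : ℝ := ((K / Q : ℕ) : ℝ)
  set r : ℝ := ((K % Q : ℕ) : ℝ)
  have hr0 : 0 ≤ r := by positivity
  have hQ1 : (0 : ℝ) < Q := by exact_mod_cast hQ0
  have hc1 : (0 : ℝ) < c := by exact_mod_cast hc0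
  have e4 : t * ∑ u ∈ range Q, g u + ∑ u ∈ range (K % Q), g u
      - (K : ℝ) / (Q * c : ℕ) * (c * ∑ u ∈ range Q, g u)
      = ∑ u ∈ range (K % Q), g u - r / Q * ∑ u ∈ range Q, g u := by
    rw [e3]; push_cast; field_simp; ring
  rw [e4]
  have h1 : |∑ u ∈ range (K % Q), g u| ≤ ∑ n ∈ range Q, |g n| :=
    (abs_sum_le_sum_abs _ _).trans (sum_le_sum_of_subset_of_nonneg
      (range_subset_range.2 (Nat.mod_lt K hQ0).le) fun _ _ _ => abs_nonneg _)
  have h2 : |r / Q * ∑ u ∈ range Q, g u| ≤ ∑ n ∈ range Q, |g n| := by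
    rw [abs_mul, abs_of_nonneg (by positivity)]
    have : r / Q ≤ 1 := (div_le_one hQ1).2 hr
    exact (mul_le_of_le_one_left (abs_nonneg _) this).trans (abs_sum_le_sum_abs _ _)
  have := abs_sub (∑ u ∈ range (K % Q), g u) (r / Q * ∑ u ∈ range Q, g u)
  linarith

lemma abs_prod_sub {ι : Type} [DecidableEq ι] (S : Finset ι) (f g : ι → ℝ) (e : ℝ)
    (hf : ∀ i, |f i| ≤ 1) (hg : ∀ i, |g i| ≤ 1) (h : ∀ i, |f i - g i| ≤ e) :
    |∏ i ∈ S, f i - ∏ i ∈ S, g i| ≤ S.card * e := by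
  induction S using Finset.induction_on with
  | empty => simp
  | insert i S hi ih =>
    rw [prod_insert hi, prod_insert hi, card_insert_of_notMem hi]
    have h1 : |∏ j ∈ S, g j| ≤ 1 := by
      rw [abs_prod]; exact prod_le_one (fun _ _ => abs_nonneg _) fun j _ => hg j
    have e1 : f i * ∏ j ∈ S, f j - g i * ∏ j ∈ S, g j
        = f i * (∏ j ∈ S, f j - ∏ j ∈ S, g j) + (f i - g i) * ∏ j ∈ S, g j := by ring
    rw [e1]
    refine (abs_add_le _ _).trans ?_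
    rw [abs_mul, abs_mul]
    have h2 := mul_le_of_le_one_left (abs_nonneg (∏ j ∈ S, f j - ∏ j ∈ S, g j)) (hf i)
    have h3 := mul_le_of_le_one_right (abs_nonneg (f i - g i)) h1
    have h4 := h i
    push_cast
    linarith

end Pool.Agent.H.PDisc
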