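import Pool.Agent.H.MP_81c263_nt.A

set_option autoImplicit false
open Finset

namespace Pool.Agent.H.PDisc

/- martingale differences of a level family -/
def Df (G : ℕ → ℕ → ℝ) : ℕ → ℕ → ℝ
  | 0, u => G 0 u
  | s + 1, u => G (s + 1) u - G s u

structure Mart (b : ℕ) (G : ℕ → ℕ → ℝ) : Prop where
  per : ∀ s, Per (b ^ s) (G s)
  avg : ∀ s u, ∑ c ∈ range b, G (s + 1) (u + c * b ^ s) = b * G s u
  bd : ∀ s, ∑ u ∈ range (b ^ s), |Df G s u| ≤ 2 * b

lemma Mart.perD {b : ℕ} {G : ℕ → ℕ → ℝ} (h : Mart b G) (s : ℕ) : Per (b ^ s) (Df G s) := by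
  cases s with
  | zero => exact h.per 0
  | succ s =>
    intro u v huv
    simp only [Df]
    rw [h.per (s + 1) u v huv, h.per s u v (huv.of_dvd (pow_dvd_pow b (Nat.le_succ s)))]

lemma Mart.zero {b : ℕ} {G : ℕ → ℕ → ℝ} (h : Mart b G) (s u : ℕ) :
    ∑ c ∈ range b, Df G (s + 1) (u + c * b ^ s) = 0 := by
  simp only [Df]
  rw [sum_sub_distrib, h.avg, sum_congr rfl fun c _ => h.per s (u + c * b ^ s) u (by simp [Nat.ModEq])]
  simp

lemma Mart.mean {b : ℕ} {G : ℕ → ℕ → ℝ} (h : Mart b G) (s : ℕ) :
    ∑ u ∈ range (b ^ s), G s u = (b : ℝ) ^ s * G 0 0 := by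
  induction s with
  | zero => simp
  | succ s ih =>
    rw [pow_succ, sum_range_mul', sum_comm, sum_congr rfl fun u _ => h.avg s u, ← mul_sum, ih]
    ring

section main
variable {k : ℕ} (b : Fin k → ℕ) (h M : ℕ) [NeZero M] (G : Fin k → ℕ → ℕ → ℝ) (w : ℕ → ℝ)

noncomputable def Z (S : Finset (Fin k)) (s : Fin k → ℕ) (ω : Fin k → ZMod M) : ℝ :=
  ∑ n ∈ range M, w n * ∏ j, (if j ∈ S then G j h else Df (G j) (s j)) (n + (ω j).val)

lemma val_shift (x : ZMod M) (n c : ℕ) : n + (x + (c : ZMod M)).val ≡ n + x.val + c [MOD M] := by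
  rw [← ZMod.natCast_eq_natCast_iff]
  push_cast
  simp [add_assoc]

theorem main_mo (n0 : ℕ) (hb : ∀ j, 0 < b j) (hc : ∀ i j, i ≠ j → (b i).Coprime (b j))
    (hM : M = ∏ j, b j ^ h) (hG : ∀ j, Mart (b j) (G j))
    (hw : ∀ Q, Q ∣ M → ∀ g : ℕ → ℝ, Per Q g → |∑ n ∈ range M, w n * g n| ≤ 6 * ∑ n ∈ range Q, |g n|)
    (S : Finset (Fin k)) : ∀ s : Fin k → ℕ, (∀ j, s j ≤ h) →
      Mo (n0 + 2) (Z h M G w S s)
        ((2 ^ (2 * n0 + 4) * (h + 1)) ^ S.card * (6 * ∏ j, (2 * (b j : ℝ))) ^ 2) := by
  have hbR : ∀ j, (0 : ℝ) < b j := fun j => by exact_mod_cast hb j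
  have hB : (0 : ℝ) < 6 * ∏ j, (2 * (b j : ℝ)) := by
    have : (0 : ℝ) < ∏ j, (2 * (b j : ℝ)) := prod_pos fun j _ => by have := hbR j; positivity
    positivity
  induction S using Finset.induction_on with
  | empty =>
    intro s hs
    have key : ∀ ω, |Z h M G w ∅ s ω| ≤ 6 * ∏ j, (2 * (b j : ℝ)) := by
      intro ω
      have hcr := fun f hf => crt (univ : Finset (Fin k)) (fun j => b j ^ s j) (fun j => pow_pos (hb j) _)
        (fun i j hij => Nat.Coprime.pow _ _ (hc i j hij)) f hf
      have hd : ∏ j, b j ^ s j ∣ M := by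
        rw [hM]; exact prod_dvd_prod_of_dvd _ _ fun j _ => pow_dvd_pow _ (hs j)
      have hp : ∀ j, Per (b j ^ s j) (fun n => Df (G j) (s j) (n + (ω j).val)) :=
        fun j => ((hG j).perD (s j)).shift _
      have h1 := hw _ hd _ (hcr _ hp).1
      simp only [Z, notMem_empty, if_false]
      refine h1.trans (mul_le_mul_of_nonneg_left ?_ (by norm_num))
      simp only [abs_prod]
      have hp2 : ∀ j, Per (b j ^ s j) (fun n => |Df (G j) (s j) n|) :=
        fun j u v huv => by simp only [(hG j).perD (s j) u v huv]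
      rw [(hcr (fun j n => |Df (G j) (s j) (n + (ω j).val)|) (fun j => (hp2 j).shift _)).2]
      refine prod_le_prod (fun j _ => sum_nonneg fun _ _ => abs_nonneg _) fun j _ => ?_
      rw [(hp2 j).sum_shift]
      exact (hG j).bd _
    unfold Mo
    simp only [card_empty, pow_zero, one_mul]
    calc ∑ ω, Z h M G w ∅ s ω ^ (2 * (n0 + 2))
        ≤ ∑ _ω : Fin k → ZMod M, ((6 * ∏ j, (2 * (b j : ℝ))) ^ 2) ^ (n0 + 2) := by
          refine sum_le_sum fun ω _ => ?_
          rw [pow_mul]
          refine pow_le_pow_left₀ (sq_nonneg _) ?_ _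
          exact sq_le_sq' (abs_le.1 (key ω)).1 (abs_le.1 (key ω)).2
      _ = _ := by simp
  | insert i S hi ih =>
    intro s hs
    set a : ℝ := (2 ^ (2 * n0 + 4) * (h + 1)) ^ S.card * (6 * ∏ j, (2 * (b j : ℝ))) ^ 2 with ha
    have ha0 : 0 < a := by positivity
    set c : ℝ := 2 ^ (2 * n0 + 4) with hcc
    have hc1 : 1 ≤ c := one_le_pow₀ (by norm_num)
    set R : (Fin k → ZMod M) → ℕ → ℝ := fun ω n =>
      ∏ j ∈ univ.erase i, (if j ∈ S then G j h else Df (G j) (s j)) (n + (ω j).val) with hR
    have hZ : ∀ t ω, Z h M G w S (Function.update s i t) ω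
        = ∑ n ∈ range M, w n * (Df (G i) t (n + (ω i).val) * R ω n) := by
      intro t ω
      refine sum_congr rfl fun n _ => ?_
      rw [← mul_prod_erase _ _ (mem_univ i)]
      simp only [hi, if_false, Function.update_self]
      congr 2
      refine prod_congr rfl fun j hj => ?_
      rw [Function.update_of_ne (ne_of_mem_erase hj)]
    have hZ2 : ∀ ω, Z h M G w (insert i S) s ω
        = ∑ n ∈ range M, w n * (G i h (n + (ω i).val) * R ω n) := by
      intro ω
      refine sum_congr rfl fun n _ => ?_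
      rw [← mul_prod_erase _ _ (mem_univ i)]
      simp only [mem_insert_self, if_true]
      congr 2
      refine prod_congr rfl fun j hj => ?_
      simp only [mem_insert, ne_of_mem_erase hj, false_or]
    have hD : ∀ t, t ≤ h → Mo (n0 + 2)
        (fun ω => ∑ n ∈ range M, w n * (Df (G i) t (n + (ω i).val) * R ω n)) a := by
      intro t ht
      have := ih (Function.update s i t) (fun j => by
        by_cases hj : j = i
        · subst hj; simpa using ht
        · rw [Function.update_of_ne hj]; exact hs j)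
      rw [show Z h M G w S (Function.update s i t) = _ from funext (hZ t)] at this
      exact this
    have hdv : ∀ t, t ≤ h → b i ^ t ∣ M := fun t ht => by
      rw [hM]; exact (pow_dvd_pow _ ht).trans (dvd_prod_of_mem (fun j => b j ^ h) (mem_univ i))
    have step : ∀ t, t ≤ h → Mo (n0 + 2)
        (fun ω => ∑ n ∈ range M, w n * (G i t (n + (ω i).val) * R ω n)) (a * (1 + c * t)) := by
      intro t
      induction t with
      | zero => intro _; simpa [Df] using hD 0 (Nat.zero_le _)
      | succ t iht =>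
        intro ht
        have h1 := iht (by omega)
        have h2 := hD (t + 1) ht
        set τ : ℕ → (Fin k → ZMod M) ≃ (Fin k → ZMod M) := fun e =>
          Equiv.addRight (Pi.single i ((e * b i ^ t : ℕ) : ZMod M)) with hτ
        have hτi : ∀ e ω, τ e ω i = ω i + ((e * b i ^ t : ℕ) : ZMod M) := by
          intro e ω; simp [hτ]
        have hτR : ∀ e ω n, R (τ e ω) n = R ω n := by
          intro e ω n
          refine prod_congr rfl fun j hj => ?_
          simp [hτ, Pi.single_eq_of_ne (ne_of_mem_erase hj)]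
        have h3 := rio n0 _ _ _ _ (by positivity) ha0 h1 h2 (orth _ (b i) (hb i) τ _ _ ?_ ?_)
        · have e1 : a * (1 + c * ((t + 1 : ℕ) : ℝ)) = a * (1 + c * t) + 2 ^ (2 * n0 + 4) * a := by
            rw [← hcc]; push_cast; ring
          rw [e1]
          convert h3 using 2 with ω
          rw [← sum_add_distrib]
          refine sum_congr rfl fun n _ => ?_
          simp only [Df]; ring
        · intro e ω
          refine sum_congr rfl fun n _ => ?_
          rw [hτR, hτi]
          congr 2
          refine (hG i).per t _ _ ?_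
          refine ((val_shift M (ω i) n _).of_dvd (hdv t (by omega))).trans ?_
          simp [Nat.ModEq]
        · intro ω
          rw [sum_comm]
          refine sum_eq_zero fun n _ => ?_
          have e2 : ∀ e ∈ range (b i), w n * (Df (G i) (t + 1) (n + (τ e ω i).val) * R (τ e ω) n)
              = (w n * R ω n) * Df (G i) (t + 1) (n + (ω i).val + e * b i ^ t) := by
            intro e _
            rw [hτR, hτi, (hG i).perD (t + 1) _ _ ((val_shift M (ω i) n _).of_dvd (hdv _ ht))]
            ring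
          rw [sum_congr rfl e2, ← mul_sum, (hG i).zero, mul_zero]
    have h4 := step h le_rfl
    rw [show Z h M G w (insert i S) s = _ from funext hZ2, card_insert_of_notMem hi]
    unfold Mo at h4 ⊢
    refine h4.trans (mul_le_mul_of_nonneg_left (pow_le_pow_left₀ (by positivity) ?_ _) (by positivity))
    have e3 : (c * (h + 1)) ^ (S.card + 1) * (6 * ∏ j, (2 * (b j : ℝ))) ^ 2 = a * (c * (h + 1)) := by
      rw [ha]; ring
    rw [e3]
    refine mul_le_mul_of_nonneg_left ?_ ha0.le
    linarith

end main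

/- digit reversal -/
def rev (b : ℕ) : ℕ → ℕ → ℕ
  | 0, _ => 0
  | s + 1, u => b * rev b s u + u / b ^ s % b

lemma rev_lt (b : ℕ) (hb : 0 < b) (s u : ℕ) : rev b s u < b ^ s := by
  induction s with
  | zero => simp [rev]
  | succ s ih =>
    have := Nat.mod_lt (u / b ^ s) hb
    simp only [rev, pow_succ]
    nlinarith

lemma rev_per (b s u v : ℕ) (h : u ≡ v [MOD b ^ s]) : rev b s u = rev b s v := by
  induction s with
  | zero => rfl
  | succ s ih =>
    simp only [rev]
    rw [ih (h.of_dvd (pow_dvd_pow b (Nat.le_succ s))), ← Nat.mod_mul_right_div_self,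
      ← Nat.mod_mul_right_div_self v, ← pow_succ, h]

lemma rev_inj (b : ℕ) (hb : 0 < b) (s u v : ℕ) (h : rev b s u = rev b s v) : u ≡ v [MOD b ^ s] := by
  induction s with
  | zero => simp [Nat.modEq_one]
  | succ s ih =>
    simp only [rev] at h
    have h1 := congrArg (· % b) h
    have h2 := congrArg (· / b) h
    simp only [Nat.mul_add_mod, Nat.mod_mod] at h1
    simp only [Nat.mul_add_div hb, Nat.mod_div_self, add_zero] at h2
    unfold Nat.ModEq
    rw [Nat.mod_pow_succ, Nat.mod_pow_succ, h1, ih h2]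

noncomputable def cl (t : ℝ) : ℝ := max 0 (min 1 t)

lemma cl_sum (n : ℕ) (T : ℝ) : ∑ c ∈ range n, cl (T - c) = max 0 (min (n : ℝ) T) := by
  induction n with
  | zero => simp
  | succ n ih =>
    rw [sum_range_succ, ih]
    have : (0 : ℝ) ≤ n := by positivity
    unfold cl
    push_cast
    simp only [max_def, min_def]
    split_ifs <;> linarith

noncomputable def ga (b : ℕ) (y : ℝ) (s u : ℕ) : ℝ := cl ((b : ℝ) ^ s * y - rev b s u)

lemma ga_avg (b : ℕ) (hb : 0 < b) (y : ℝ) (s u : ℕ) :
    ∑ c ∈ range b, ga b y (s + 1) (u + c * b ^ s) = b * ga b y s u := by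
  have hbR : (0 : ℝ) < b := by exact_mod_cast hb
  set T : ℝ := b * ((b : ℝ) ^ s * y - rev b s u) with hT
  have hp : Per b (fun c => cl (T - (c % b : ℕ))) := fun u v huv => by simp only [show u % b = v % b from huv]
  have e1 : ∀ c ∈ range b, ga b y (s + 1) (u + c * b ^ s) = cl (T - ((c + u / b ^ s) % b : ℕ)) := by
    intro c _
    simp only [ga, rev]
    rw [rev_per b s (u + c * b ^ s) u (by simp [Nat.ModEq]), Nat.add_mul_div_right _ _ (pow_pos hb s),
      add_comm c]
    congr 1
    rw [hT]; push_cast; ring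
  rw [sum_congr rfl e1, hp.sum_shift, sum_congr rfl fun c hc => by rw [Nat.mod_eq_of_lt (mem_range.1 hc)],
    cl_sum, hT, ga, cl]
  rw [mul_max_of_nonneg _ _ hbR.le, mul_min_of_nonneg _ _ hbR.le]
  simp

lemma ga_bd (b : ℕ) (hb : 0 < b) (y : ℝ) (s : ℕ) :
    ∑ u ∈ range (b ^ (s + 1)), |ga b y (s + 1) u - ga b y s u| ≤ b := by
  have hbR : (1 : ℝ) ≤ b := by exact_mod_cast hb
  have h1 : ∀ u ∈ range (b ^ (s + 1)), |ga b y (s + 1) u - ga b y s u|
      ≤ if rev b s u = ⌊(b : ℝ) ^ s * y⌋₊ then 1 else 0 := by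
    intro u _
    have hd : ((u / b ^ s % b : ℕ) : ℝ) + 1 ≤ b := by exact_mod_cast Nat.mod_lt (u / b ^ s) hb
    have hd0 : (0 : ℝ) ≤ ((u / b ^ s % b : ℕ) : ℝ) := by positivity
    have e : ga b y (s + 1) u = cl (b * ((b : ℝ) ^ s * y - rev b s u) - (u / b ^ s % b : ℕ)) := by
      simp only [ga, rev]; congr 1; push_cast; ring
    rw [e, ga]
    split_ifs with hh
    · unfold cl
      rw [abs_le]
      simp only [max_def, min_def]
      constructor <;> split_ifs <;> linarith
    · have : (b : ℝ) ^ s * y - rev b s u ≤ 0 ∨ 1 ≤ (b : ℝ) ^ s * y - rev b s u := by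
        by_contra hn
        push Not at hn
        apply hh
        symm
        have : (0 : ℝ) ≤ rev b s u := by positivity
        rw [Nat.floor_eq_iff (by linarith)]
        constructor <;> linarith
      generalize (b : ℝ) ^ s * y - rev b s u = t at *
      generalize ((u / b ^ s % b : ℕ) : ℝ) = r at *
      unfold cl
      rcases this with h | h
      · have : b * t ≤ 0 := by nlinarith
        rw [min_eq_right (by linarith), min_eq_right (by linarith), max_eq_left (by linarith),
          max_eq_left h]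
        simp
      · have : b ≤ b * t := by nlinarith
        rw [min_eq_left (by linarith), min_eq_left h]
        simp
  refine (sum_le_sum h1).trans ?_
  rw [← sum_filter, sum_const, nsmul_eq_mul, mul_one]
  have : ((range (b ^ (s + 1))).filter fun u => rev b s u = ⌊(b : ℝ) ^ s * y⌋₊).card ≤ (range b).card := by
    refine card_le_card_of_injOn (fun u => u / b ^ s) ?_ ?_
    · intro u hu
      simp only [coe_filter, mem_range, Set.mem_setOf_eq, coe_range, Set.mem_Iio] at hu ⊢
      rw [Nat.div_lt_iff_lt_mul (pow_pos hb s), mul_comm, ← pow_succ]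
      exact hu.1
    · intro u hu v hv huv
      simp only [coe_filter, mem_range, Set.mem_setOf_eq] at hu hv
      have h2 := rev_inj b hb s u v (hu.2.trans hv.2.symm)
      simp only at huv
      rw [← Nat.div_add_mod u (b ^ s), ← Nat.div_add_mod v (b ^ s), huv, h2]
  rw [card_range] at this
  exact_mod_cast this

noncomputable def gp (b : ℕ) (x y e : ℝ) (s u : ℕ) : ℝ := ga b y s u - ga b x s u + e

lemma gp_mart (b : ℕ) (hb : 0 < b) (x y e : ℝ) (h0 : |cl y - cl x + e| ≤ 1) : Mart b (gp b x y e) := by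
  have hbR : (1 : ℝ) ≤ b := by exact_mod_cast hb
  refine ⟨fun s u v huv => by simp only [gp, ga, rev_per b s u v huv], fun s u => ?_, fun s => ?_⟩
  · simp only [gp]
    rw [sum_add_distrib, sum_sub_distrib, ga_avg b hb, ga_avg b hb]
    simp; ring
  · cases s with
    | zero => simp [Df, gp, ga, rev]; linarith
    | succ s =>
      have h1 := ga_bd b hb x s
      have h2 := ga_bd b hb y s
      refine le_trans (sum_le_sum fun u _ => ?_) ((sum_add_distrib.le).trans (by linarith :
        ∑ u ∈ range (b ^ (s + 1)), |ga b y (s + 1) u - ga b y s u|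
          + ∑ u ∈ range (b ^ (s + 1)), |ga b x (s + 1) u - ga b x s u| ≤ 2 * b))
      refine le_trans (le_of_eq ?_) (abs_sub _ _)
      simp only [Df, gp]
      congr 1; ring

end Pool.Agent.H.PDisc
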