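import Pool.Agent.H.MP_81c263_nt.B

set_option autoImplicit false
open Finset MeasureTheory Classical

namespace Pool.Agent.H.PDisc

noncomputable def rd (q : ℕ) (y : ℝ) : ℝ := (⌈(q : ℝ) * y⌉₊ : ℝ) / q

noncomputable def ee (x y : ℝ) : ℝ := if x ≤ y then 0 else 1

lemma ceil_le_q (q : ℕ) (y : ℝ) (hy : y < 1) : ⌈(q : ℝ) * y⌉₊ ≤ q := by
  rw [Nat.ceil_le]
  have : (0 : ℝ) ≤ q := by positivity
  nlinarith

lemma rd_mem (q : ℕ) (hq : 0 < q) (y : ℝ) (h0 : 0 ≤ y) (hy : y < 1) :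
    0 ≤ rd q y ∧ rd q y ≤ 1 ∧ y ≤ rd q y ∧ rd q y ≤ y + 1 / q := by
  have hq' : (0 : ℝ) < q := by exact_mod_cast hq
  unfold rd
  refine ⟨by positivity, ?_, ?_, ?_⟩
  · rw [div_le_one hq']; exact_mod_cast ceil_le_q q y hy
  · rw [le_div_iff₀ hq', mul_comm]; exact Nat.le_ceil _
  · rw [div_le_iff₀ hq']
    have := (Nat.ceil_lt_add_one (show 0 ≤ (q : ℝ) * y by positivity)).le
    have e : (y + 1 / q) * q = q * y + 1 := by field_simp
    linarith

lemma rd_mono (q : ℕ) (x y : ℝ) (h : x ≤ y) : rd q x ≤ rd q y := by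
  unfold rd
  gcongr

lemma len_facts (q N : ℕ) (hN : 0 < N) (hq : N ≤ q) (x y : ℝ) (hx : x ∈ Set.Ico (0 : ℝ) 1)
    (hy : y ∈ Set.Ico (0 : ℝ) 1) :
    |rd q y - rd q x + ee x y| ≤ 1 ∧ |if x ≤ y then y - x else 1 - x + y| ≤ 1 ∧
    |(rd q y - rd q x + ee x y) - (if x ≤ y then y - x else 1 - x + y)| ≤ 1 / N := by
  obtain ⟨a1, a2, a3, a4⟩ := rd_mem q (by omega) x hx.1 hx.2
  obtain ⟨b1, b2, b3, b4⟩ := rd_mem q (by omega) y hy.1 hy.2
  have h1 : (1 : ℝ) / q ≤ 1 / N := by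
    apply one_div_le_one_div_of_le <;> [exact_mod_cast hN; exact_mod_cast hq]
  obtain ⟨x0, x1⟩ := hx
  obtain ⟨y0, y1⟩ := hy
  unfold ee
  split_ifs with h
  · have := rd_mono q x y h
    refine ⟨?_, ?_, ?_⟩ <;> rw [abs_le] <;> constructor <;> linarith
  · have := rd_mono q y x (not_le.1 h).le
    have := not_le.1 h
    refine ⟨?_, ?_, ?_⟩ <;> rw [abs_le] <;> constructor <;> linarith

lemma ind_eq (q v : ℕ) (hq : 0 < q) (x y : ℝ) :
    (if (x ≤ y ∧ x ≤ (v : ℝ) / q ∧ (v : ℝ) / q < y) ∨ (y < x ∧ ((v : ℝ) / q < y ∨ x ≤ (v : ℝ) / q))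
      then (1 : ℝ) else 0)
    = (if v < ⌈(q : ℝ) * y⌉₊ then 1 else 0) - (if v < ⌈(q : ℝ) * x⌉₊ then 1 else 0) + ee x y := by
  have hq' : (0 : ℝ) < q := by exact_mod_cast hq
  have e : ∀ t : ℝ, v < ⌈(q : ℝ) * t⌉₊ ↔ (v : ℝ) / q < t := fun t => by
    rw [Nat.lt_ceil, div_lt_iff₀ hq', mul_comm]
  simp only [e, ee]
  generalize (v : ℝ) / q = z
  by_cases h1 : x ≤ y <;> by_cases h2 : z < y <;> by_cases h3 : z < x <;>
    simp [h1, h2, h3, not_le.2, not_lt.1, not_lt.2, not_le.1] <;> first | linarith | (push Not at *; grind)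

lemma cl_nat (A v : ℕ) : cl ((A : ℝ) - v) = if v < A then 1 else 0 := by
  unfold cl
  split_ifs with h
  · have : (v : ℝ) + 1 ≤ A := by exact_mod_cast h
    rw [min_eq_left (by linarith)]; simp
  · have : (A : ℝ) ≤ v := by exact_mod_cast not_lt.1 h
    rw [min_eq_right (by linarith), max_eq_left (by linarith)]

lemma ga_top (b h : ℕ) (hb : 0 < b) (y : ℝ) (u : ℕ) :
    ga b (rd (b ^ h) y) h u = if rev b h u < ⌈((b ^ h : ℕ) : ℝ) * y⌉₊ then 1 else 0 := by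
  rw [← cl_nat, ga, rd]
  congr 2
  have : (0 : ℝ) < b := by exact_mod_cast hb
  push_cast
  field_simp

lemma cl_id (t : ℝ) (h0 : 0 ≤ t) (h1 : t ≤ 1) : cl t = t := by
  unfold cl; rw [min_eq_right h1, max_eq_right h0]

noncomputable def pt {k : ℕ} (b : Fin k → ℕ) (h N : ℕ) (a : Fin k → ℕ) (n : ℕ) : Fin (k + 1) → ℝ :=
  Fin.cons ((n : ℝ) / N) (fun j => (rev (b j) h (n + a j) : ℝ) / (b j ^ h : ℕ))

noncomputable def disc {d : ℕ} (P : Finset (Fin d → ℝ)) (N : ℕ) (x y : Fin d → ℝ) : ℝ :=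
  ((P.filter (fun z => ∀ i : Fin d,
      (x i ≤ y i ∧ x i ≤ z i ∧ z i < y i) ∨ (y i < x i ∧ (z i < y i ∨ x i ≤ z i)))).card : ℝ)
    - (N : ℝ) * ∏ i : Fin d, (if x i ≤ y i then y i - x i else 1 - x i + y i)

lemma pt_inj {k : ℕ} (b : Fin k → ℕ) (h N : ℕ) (hN : 0 < N) (a : Fin k → ℕ) :
    Function.Injective (pt b h N a) := by
  intro n n' hn
  have h1 := congrFun hn 0
  simp only [pt, Fin.cons_zero] at h1
  have : (0 : ℝ) < N := by exact_mod_cast hN
  field_simp at h1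
  exact_mod_cast h1

lemma pb {k : ℕ} (p : Fin k → Prop) [DecidablePred p] [Decidable (∀ j, p j)] :
    ∏ j, (if p j then (1 : ℝ) else 0) = if ∀ j, p j then 1 else 0 := by
  rw [Fintype.prod_boole]
  congr

theorem moment {k : ℕ} (b : Fin k → ℕ) (h M N : ℕ) [NeZero M] (n0 : ℕ) (hb : ∀ j, 0 < b j)
    (hc : ∀ i j, i ≠ j → (b i).Coprime (b j)) (hM : M = ∏ j, b j ^ h) (hN : 0 < N) (hNM : N ≤ M)
    (hNb : ∀ j, N ≤ b j ^ h) (x y : Fin (k + 1) → ℝ) (hx : ∀ i, x i ∈ Set.Ico (0 : ℝ) 1)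
    (hy : ∀ i, y i ∈ Set.Ico (0 : ℝ) 1) :
    ∃ Y : (Fin k → ZMod M) → ℝ,
      Mo (n0 + 2) Y ((2 ^ (2 * n0 + 4) * (h + 1)) ^ k * (6 * ∏ j, (2 * (b j : ℝ))) ^ 2) ∧
      ∀ ω, |disc ((range N).image (pt b h N fun j => (ω j).val)) N x y - Y ω| ≤ k + 1 := by
  have hM0 : 0 < M := by omega
  have hMR : (0 : ℝ) < M := by exact_mod_cast hM0
  have hNR : (0 : ℝ) < N := by exact_mod_cast hN
  set G : Fin k → ℕ → ℕ → ℝ := fun j =>
    gp (b j) (rd (b j ^ h) (x j.succ)) (rd (b j ^ h) (y j.succ)) (ee (x j.succ) (y j.succ)) with hGd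
  have hcl : ∀ j (z : Fin (k + 1) → ℝ), (∀ i, z i ∈ Set.Ico (0 : ℝ) 1) →
      cl (rd (b j ^ h) (z j.succ)) = rd (b j ^ h) (z j.succ) := fun j z hz => by
    obtain ⟨a1, a2, -⟩ := rd_mem (b j ^ h) (pow_pos (hb j) h) _ (hz j.succ).1 (hz j.succ).2
    exact cl_id _ a1 a2
  have hG : ∀ j, Mart (b j) (G j) := fun j => gp_mart _ (hb j) _ _ _ (by
    rw [hcl j x hx, hcl j y hy]; exact (len_facts _ N hN (hNb j) _ _ (hx _) (hy _)).1)
  set Kx := ⌈(N : ℝ) * x 0⌉₊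
  set Ky := ⌈(N : ℝ) * y 0⌉₊
  have hKx : Kx ≤ N := ceil_le_q N _ (hx 0).2
  have hKy : Ky ≤ N := ceil_le_q N _ (hy 0).2
  set e0 := ee (x 0) (y 0) with he0
  have he : |e0| ≤ 1 := by rw [he0, ee]; split_ifs <;> simp
  set w : ℕ → ℝ := fun n => ((if n < Ky then 1 else 0) - (Ky : ℝ) / M)
    - ((if n < Kx then 1 else 0) - (Kx : ℝ) / M) + e0 * ((if n < N then 1 else 0) - (N : ℝ) / M) with hwd
  have hw : ∀ Q, Q ∣ M → ∀ g : ℕ → ℝ, Per Q g →
      |∑ n ∈ range M, w n * g n| ≤ 6 * ∑ n ∈ range Q, |g n| := by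
    intro Q hQ g hg
    have h1 := wbound Ky M Q hQ hM0 (by omega) g hg
    have h2 := wbound Kx M Q hQ hM0 (by omega) g hg
    have h3 := wbound N M Q hQ hM0 hNM g hg
    have e1 : ∑ n ∈ range M, w n * g n
        = ∑ n ∈ range M, ((if n < Ky then 1 else 0) - (Ky : ℝ) / M) * g n
          - ∑ n ∈ range M, ((if n < Kx then 1 else 0) - (Kx : ℝ) / M) * g n
          + e0 * ∑ n ∈ range M, ((if n < N then 1 else 0) - (N : ℝ) / M) * g n := by
      rw [mul_sum, ← sum_sub_distrib, ← sum_add_distrib]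
      exact sum_congr rfl fun n _ => by simp only [hwd]; ring
    rw [e1]
    refine (abs_add_le _ _).trans ?_
    have h4 := abs_sub (∑ n ∈ range M, ((if n < Ky then 1 else 0) - (Ky : ℝ) / M) * g n)
      (∑ n ∈ range M, ((if n < Kx then 1 else 0) - (Kx : ℝ) / M) * g n)
    rw [abs_mul]
    have h5 := mul_le_of_le_one_left
      (abs_nonneg (∑ n ∈ range M, ((if n < N then 1 else 0) - (N : ℝ) / M) * g n)) he
    linarith
  have hmo := main_mo b h M G w n0 hb hc hM hG hw univ (fun _ => 0) (fun _ => Nat.zero_le _)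
  rw [card_univ, Fintype.card_fin] at hmo
  refine ⟨_, hmo, fun ω => ?_⟩
  set g : ℕ → ℝ := fun n => ∏ j, G j h (n + (ω j).val) with hg
  have hmean : ∑ n ∈ range M, g n = M * ∏ j, G j 0 0 := by
    have := (crt (univ : Finset (Fin k)) (fun j => b j ^ h) (fun j => pow_pos (hb j) _)
      (fun i j hij => Nat.Coprime.pow _ _ (hc i j hij)) (fun j n => G j h (n + (ω j).val))
      (fun j => ((hG j).per h).shift _)).2
    rw [← hM] at this
    rw [this, prod_congr rfl fun j _ => by rw [((hG j).per h).sum_shift, (hG j).mean], prod_mul_distrib]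
    congr 1
    rw [hM]; push_cast; rfl
  have hcount : ((((range N).image (pt b h N fun j => (ω j).val)).filter (fun z => ∀ i : Fin (k + 1),
      (x i ≤ y i ∧ x i ≤ z i ∧ z i < y i) ∨ (y i < x i ∧ (z i < y i ∨ x i ≤ z i)))).card : ℝ)
      = ∑ n ∈ range M, ((if n < Ky then 1 else 0) - (if n < Kx then 1 else 0)
          + e0 * (if n < N then 1 else 0)) * g n := by
    rw [filter_image, card_image_of_injective _ (pt_inj b h N hN _), card_filter]
    push_cast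
    rw [← sum_subset (range_subset_range.2 hNM) ?_]
    · refine sum_congr rfl fun n hn => ?_
      rw [if_pos (mem_range.1 hn), mul_one, he0, ← ind_eq N n hN]
      have e2 : g n = if ∀ j : Fin k, (x j.succ ≤ y j.succ ∧ x j.succ ≤ pt b h N (fun j => (ω j).val) n j.succ
          ∧ pt b h N (fun j => (ω j).val) n j.succ < y j.succ) ∨ (y j.succ < x j.succ ∧
          (pt b h N (fun j => (ω j).val) n j.succ < y j.succ ∨
            x j.succ ≤ pt b h N (fun j => (ω j).val) n j.succ)) then 1 else 0 := by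
        refine Eq.trans ?_ (pb _)
        refine prod_congr rfl fun j _ => ?_
        simp only [hGd, gp, pt, Fin.cons_succ]
        rw [ga_top _ _ (hb j), ga_top _ _ (hb j), ← ind_eq _ _ (pow_pos (hb j) h)]
      rw [e2, ite_zero_mul_ite_zero, mul_one]
      exact if_congr Fin.forall_fin_succ rfl rfl
    · intro n _ hn
      have : ¬ n < N := by simpa using hn
      rw [if_neg this, if_neg (by omega), if_neg (by omega)]
      simp
  have hZ : Z h M G w univ (fun _ => 0) ω = ∑ n ∈ range M, ((if n < Ky then 1 else 0)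
      - (if n < Kx then 1 else 0) + e0 * (if n < N then 1 else 0)) * g n
      - ((Ky : ℝ) - Kx + e0 * N) / M * ∑ n ∈ range M, g n := by
    rw [mul_sum, ← sum_sub_distrib]
    refine sum_congr rfl fun n _ => ?_
    simp only [mem_univ, if_true, hwd, hg]
    ring
  rw [disc, hcount, hZ, hmean]
  set f : Fin (k + 1) → ℝ := Fin.cons (rd N (y 0) - rd N (x 0) + e0) (fun j => G j 0 0) with hf
  have hf2 : ∀ i, |f i| ≤ 1 ∧ |f i - (if x i ≤ y i then y i - x i else 1 - x i + y i)| ≤ 1 / N := by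
    intro i
    refine Fin.cases ?_ (fun j => ?_) i
    · have := len_facts N N hN le_rfl _ _ (hx 0) (hy 0)
      exact ⟨this.1, this.2.2⟩
    · have := len_facts _ N hN (hNb j) _ _ (hx j.succ) (hy j.succ)
      have e3 : f j.succ = rd (b j ^ h) (y j.succ) - rd (b j ^ h) (x j.succ) + ee (x j.succ) (y j.succ) := by
        simp [hf, hGd, gp, ga, rev, hcl j x hx, hcl j y hy]
      rw [e3]
      exact ⟨this.1, this.2.2⟩
  have h6 := abs_prod_sub univ f (fun i => if x i ≤ y i then y i - x i else 1 - x i + y i) (1 / N)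
    (fun i => (hf2 i).1) (fun i => (len_facts N N hN le_rfl _ _ (hx i) (hy i)).2.1) (fun i => (hf2 i).2)
  have e4 : ((Ky : ℝ) - Kx + e0 * N) / M * (M * ∏ j, G j 0 0) = N * ∏ i, f i := by
    rw [Fin.prod_univ_succ]
    simp only [hf, Fin.cons_zero, Fin.cons_succ, rd]
    field_simp
    ring
  rw [e4]
  have e5 : ∀ A B C : ℝ, A - N * B - (A - N * C) = N * (C - B) := fun A B C => by ring
  rw [e5, abs_mul, abs_of_pos hNR]
  rw [card_univ, Fintype.card_fin] at h6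
  calc (N : ℝ) * _ ≤ N * (((k + 1 : ℕ) : ℝ) * (1 / N)) := mul_le_mul_of_nonneg_left h6 hNR.le
    _ = k + 1 := by push_cast; field_simp

lemma lp_of_mo {Ω : Type} [Fintype Ω] (m : ℕ) (p : ℝ) (hp : 0 ≤ p) (hpm : p ≤ (2 * m : ℕ)) (X Y : Ω → ℝ)
    (a e : ℝ) (ha : 0 < a) (he : 0 ≤ e) (hY : Mo m Y a) (hXY : ∀ ω, |X ω - Y ω| ≤ e) :
    ∑ ω, |X ω| ^ p ≤ (Fintype.card Ω : ℝ) * (2 * (2 * (√a + e)) ^ p) := by
  have hs : 0 < √a := Real.sqrt_pos.2 ha
  have pw : ∀ ω, |X ω| ^ p ≤ (2 * (√a + e)) ^ p * (1 + Y ω ^ (2 * m) / a ^ m) := by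
    intro ω
    set t := max (|Y ω| / √a) 1 with ht
    have ht1 : 1 ≤ t := le_max_right _ _
    have h1 : |Y ω| ≤ √a * t := by
      rw [mul_comm, ← div_le_iff₀ hs]; exact le_max_left _ _
    have h2 : |X ω| ≤ 2 * (√a + e) * t := by
      have := abs_sub_abs_le_abs_sub (X ω) (Y ω)
      have := hXY ω
      nlinarith
    have h3 : t ^ p ≤ 1 + Y ω ^ (2 * m) / a ^ m := by
      refine (Real.rpow_le_rpow_of_exponent_le ht1 hpm).trans ?_
      rw [Real.rpow_natCast]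
      have e1 : Y ω ^ (2 * m) / a ^ m = (|Y ω| / √a) ^ (2 * m) := by
        rw [div_pow, pow_mul, pow_mul, pow_mul, sq_abs, Real.sq_sqrt ha.le]
      rw [e1, ht]
      have : 0 ≤ (|Y ω| / √a) ^ (2 * m) := by positivity
      rcases le_total (|Y ω| / √a) 1 with h | h
      · rw [max_eq_right h, one_pow]; linarith
      · rw [max_eq_left h]; linarith
    calc |X ω| ^ p ≤ (2 * (√a + e) * t) ^ p := Real.rpow_le_rpow (abs_nonneg _) h2 hp
      _ = (2 * (√a + e)) ^ p * t ^ p := Real.mul_rpow (by positivity) (by positivity)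
      _ ≤ _ := mul_le_mul_of_nonneg_left h3 (by positivity)
  refine (sum_le_sum fun ω _ => pw ω).trans ?_
  rw [← mul_sum, sum_add_distrib, ← sum_div]
  have h4 : (∑ ω, Y ω ^ (2 * m)) / a ^ m ≤ Fintype.card Ω := by
    rw [div_le_iff₀ (by positivity)]; exact hY
  simp only [sum_const, card_univ, nsmul_eq_mul, mul_one]
  have : 0 ≤ (2 * (√a + e)) ^ p := by positivity
  nlinarith

lemma sum_lint_le {α Ω : Type} [MeasurableSpace α] (μ : Measure α) (S : Finset Ω) (f : Ω → α → ENNReal) :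
    ∑ ω ∈ S, ∫⁻ x, f ω x ∂μ ≤ ∫⁻ x, ∑ ω ∈ S, f ω x ∂μ := by
  induction S using Finset.induction_on with
  | empty => simp
  | insert i S hi ih =>
    simp only [sum_insert hi]
    exact (add_le_add le_rfl ih).trans (le_lintegral_add _ _)

lemma exists_good {α Ω : Type} [MeasurableSpace α] [Fintype Ω] [Nonempty Ω] (μ : Measure α) (A : Set α)
    (hA : MeasurableSet A) (hμ : μ A = 1) (F : Ω → α → α → ℝ) (hF : ∀ ω x y, 0 ≤ F ω x y) (B : ℝ)
    (hB : 0 ≤ B) (h : ∀ x ∈ A, ∀ y ∈ A, ∑ ω, F ω x y ≤ (Fintype.card Ω : ℝ) * B) :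
    ∃ ω, ∫ x in A, ∫ y in A, F ω x y ∂μ ∂μ ≤ B := by
  have h1 : ∑ ω, ‖∫ x in A, ∫ y in A, F ω x y ∂μ ∂μ‖ₑ ≤ ENNReal.ofReal ((Fintype.card Ω : ℝ) * B) := by
    calc ∑ ω, ‖∫ x in A, ∫ y in A, F ω x y ∂μ ∂μ‖ₑ
        ≤ ∑ ω, ∫⁻ x in A, ∫⁻ y in A, ‖F ω x y‖ₑ ∂μ ∂μ := by
          refine sum_le_sum fun ω _ => (enorm_integral_le_lintegral_enorm _).trans ?_
          exact lintegral_mono fun x => enorm_integral_le_lintegral_enorm _
      _ ≤ ∫⁻ x in A, ∫⁻ y in A, ∑ ω, ‖F ω x y‖ₑ ∂μ ∂μ :=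
          (sum_lint_le _ _ _).trans (lintegral_mono fun x => sum_lint_le _ _ _)
      _ ≤ ∫⁻ _x in A, ∫⁻ _y in A, ENNReal.ofReal ((Fintype.card Ω : ℝ) * B) ∂μ ∂μ := by
          refine setLIntegral_mono' hA fun x hx => setLIntegral_mono' hA fun y hy => ?_
          rw [sum_congr rfl fun ω _ => Real.enorm_eq_ofReal (hF ω x y),
            ← ENNReal.ofReal_sum_of_nonneg fun ω _ => hF ω x y]
          exact ENNReal.ofReal_le_ofReal (h x hx y hy)
      _ = _ := by simp [hμ]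
  have h0 : ∀ ω, 0 ≤ ∫ x in A, ∫ y in A, F ω x y ∂μ ∂μ :=
    fun ω => integral_nonneg fun x => integral_nonneg fun y => hF ω x y
  rw [sum_congr rfl fun ω _ => Real.enorm_eq_ofReal (h0 ω), ← ENNReal.ofReal_sum_of_nonneg fun ω _ => h0 ω,
    ENNReal.ofReal_le_ofReal_iff (by positivity)] at h1
  obtain ⟨ω, -, hω⟩ := exists_le_of_sum_le (s := univ) (g := fun _ => B) univ_nonempty
    (by simpa using h1)
  exact ⟨ω, hω⟩

end Pool.Agent.H.PDisc
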